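import Pool.Agent.helper23.RG.GRM

set_option autoImplicit false

namespace Pool.Agent.RF

open Finset NumberField Pool.Agent.helper3.FT

theorem GEA (h1 : GRM_stmt) : GEA_stmt := by
  intro E P k μ M₀ s₀ hE hk hkE hPk hμ
  have hk10 : Nat.Coprime k.norm.natAbs 10 := Nat.Coprime.coprime_mul_right_right hkE
  have hkE' : Nat.Coprime k.norm.natAbs E := Nat.Coprime.coprime_mul_left_right hkE
  have hPk' : Nat.Coprime P.natAbs k.norm.natAbs := Nat.Coprime.coprime_mul_right_right hPk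
  have hPE : Nat.Coprime P.natAbs E := Nat.Coprime.coprime_mul_left_right hPk
  obtain ⟨⟨a, hR⟩, hG0⟩ := h1.1 k μ P hk hk10 hPk'
  have hG := hG0 a hR
  have hF1 := GRM_F1 hk 3
  obtain ⟨q, hq⟩ : ∃ q : ℕ, q = k.norm.natAbs := ⟨_, rfl⟩
  rw [← hq] at hk10 hkE' hF1 hG ⊢
  have hq0 : 0 < q := by
    rcases Nat.eq_zero_or_pos q with h | h
    · exfalso
      rw [h] at hk10
      simp at hk10
    · exact h
  have hcop : IsCoprime ((q ^ 3 : ℕ) : ℤ) (E : ℤ) := Nat.isCoprime_iff_coprime.2 (Nat.Coprime.pow_left 3 hkE')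
  obtain ⟨u, v, huv⟩ := hcop
  obtain ⟨e1, he1⟩ : ∃ e1 : ℤ, e1 = v * E := ⟨_, rfl⟩
  obtain ⟨e2, he2⟩ : ∃ e2 : ℤ, e2 = u * ((q ^ 3 : ℕ) : ℤ) := ⟨_, rfl⟩
  have hsum : e2 + e1 = 1 := by rw [he1, he2]; exact huv
  have hq1 : ((q ^ 3 : ℕ) : ℤ) ∣ e1 - 1 := ⟨-u, by linear_combination hsum - he2⟩
  have hk3 : k ^ 3 ∣ ((e1 - 1 : ℤ) : OO) := (hF1 _).2 hq1
  obtain ⟨ha, hb, hc⟩ := hR
  have hR' : RM k μ P (e1 * a.1, e1 * a.2.1, e1 * a.2.2) := by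
    refine ⟨?_, ?_, ?_⟩
    · have e3 : star k ^ 2 * (r5 * ((P * (e1 * a.1) : ℤ) : OO) - (μ.norm : OO)) - 2 * ph * k ^ 2 * μ ^ 2 =
          (star k ^ 2 * (r5 * ((P * a.1 : ℤ) : OO) - (μ.norm : OO)) - 2 * ph * k ^ 2 * μ ^ 2) +
          star k ^ 2 * r5 * (P : OO) * (a.1 : OO) * ((e1 - 1 : ℤ) : OO) := by
        push_cast
        ring
      change k ^ 3 ∣ star k ^ 2 * (r5 * ((P * (e1 * a.1) : ℤ) : OO) - (μ.norm : OO)) - 2 * ph * k ^ 2 * μ ^ 2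
      rw [e3]
      exact dvd_add ha (hk3.mul_left _)
    · have e3 : star k ^ 2 * (r5 * ((P * (e1 * a.2.1) : ℤ) : OO) - (μ.norm : OO)) - 4 * ph ^ 2 * k ^ 2 * μ ^ 2 =
          (star k ^ 2 * (r5 * ((P * a.2.1 : ℤ) : OO) - (μ.norm : OO)) - 4 * ph ^ 2 * k ^ 2 * μ ^ 2) +
          star k ^ 2 * r5 * (P : OO) * (a.2.1 : OO) * ((e1 - 1 : ℤ) : OO) := by
        push_cast
        ring
      change k ^ 3 ∣ star k ^ 2 * (r5 * ((P * (e1 * a.2.1) : ℤ) : OO) - (μ.norm : OO)) - 4 * ph ^ 2 * k ^ 2 * μ ^ 2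
      rw [e3]
      exact dvd_add hb (hk3.mul_left _)
    · have e3 : star k ^ 2 * (r5 * ((P * (e1 * a.2.2) : ℤ) : OO) + (μ.norm : OO)) - 2 * ph ^ 3 * k ^ 2 * μ ^ 2 =
          (star k ^ 2 * (r5 * ((P * a.2.2 : ℤ) : OO) + (μ.norm : OO)) - 2 * ph ^ 3 * k ^ 2 * μ ^ 2) +
          star k ^ 2 * r5 * (P : OO) * (a.2.2 : OO) * ((e1 - 1 : ℤ) : OO) := by
        push_cast
        ring
      change k ^ 3 ∣ star k ^ 2 * (r5 * ((P * (e1 * a.2.2) : ℤ) : OO) + (μ.norm : OO)) - 2 * ph ^ 3 * k ^ 2 * μ ^ 2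
      rw [e3]
      exact dvd_add hc (hk3.mul_left _)
  -- inverse of μ and P modulo E
  have hμE : IsCoprime μ.norm (E : ℤ) := by
    rw [Int.isCoprime_iff_gcd_eq_one, Int.gcd_eq_natAbs]
    simpa using hμ
  have hPE' : IsCoprime P (E : ℤ) := by
    rw [Int.isCoprime_iff_gcd_eq_one, Int.gcd_eq_natAbs]
    simpa using hPE
  obtain ⟨x0, y0, hxy0⟩ := hμE
  obtain ⟨x1, y1, hxy1⟩ := hPE'
  have hxy0' : (x0 : OO) * (μ * star μ) + (y0 : OO) * (E : OO) = 1 := by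
    have h := congrArg (Int.cast : ℤ → OO) hxy0
    push_cast at h
    rw [GRM_ns] at h
    exact h
  obtain ⟨T, hT⟩ : ∃ T : OO, T = (x0 : OO) * star μ * M₀ := ⟨_, rfl⟩
  obtain ⟨m₁, hm₁⟩ : ∃ m₁ : ℤ, m₁ = T.re % E := ⟨_, rfl⟩
  obtain ⟨n₁, hn₁⟩ : ∃ n₁ : ℤ, n₁ = T.im % E := ⟨_, rfl⟩
  have hEpos : (0 : ℤ) < E := by exact_mod_cast hE
  have hTM : (E : OO) ∣ T - (⟨m₁, n₁⟩ : OO) := by
    have h := (GRM_castdvd (E : ℤ) (T - (⟨m₁, n₁⟩ : OO))).2 ⟨?_, ?_⟩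
    · exact_mod_cast h
    · rw [QuadraticAlgebra.re_sub, hm₁]
      exact Int.dvd_self_sub_emod
    · rw [QuadraticAlgebra.im_sub, hn₁]
      exact Int.dvd_self_sub_emod
  obtain ⟨s₁, hs₁⟩ : ∃ s₁ : ℤ, s₁ = x1 * s₀ := ⟨_, rfl⟩
  refine ⟨(e1 * a.1, e1 * a.2.1, e1 * a.2.2), hR', ⟨m₁, n₁⟩, (e1 * (2 * a.1 * m₁ + a.2.1 * n₁) : ℤ) / (q : ℝ) ^ 3,
    (e1 * (a.2.1 * m₁ + 2 * a.2.2 * n₁) : ℤ) / (q : ℝ) ^ 3,
    (e1 * (a.1 * m₁ ^ 2 + a.2.1 * m₁ * n₁ + a.2.2 * n₁ ^ 2) + e2 * s₁ : ℤ) / ((E : ℝ) * (q : ℝ) ^ 3), ?_, ?_, ?_, ?_, ?_⟩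
  · change 0 ≤ m₁
    rw [hm₁]
    exact Int.emod_nonneg _ hEpos.ne'
  · change m₁ < E
    rw [hm₁]
    exact Int.emod_lt_of_pos _ hEpos
  · change 0 ≤ n₁
    rw [hn₁]
    exact Int.emod_nonneg _ hEpos.ne'
  · change n₁ < E
    rw [hn₁]
    exact Int.emod_lt_of_pos _ hEpos
  · intro M₂ s₂ hCG hM hs
    have hMT : (E : OO) ∣ M₂ - T := by
      obtain ⟨w, hw⟩ := hM
      refine ⟨(x0 : OO) * star μ * w + (y0 : OO) * M₂, ?_⟩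
      rw [hT]
      linear_combination ((x0 : OO) * star μ) * hw - M₂ * hxy0'
    obtain ⟨w, hw⟩ := dvd_add hMT hTM
    have hM2 : M₂ = (⟨m₁, n₁⟩ : OO) + (E : OO) * ⟨w.re, w.im⟩ := by
      have : (⟨w.re, w.im⟩ : OO) = w := rfl
      rw [this]
      linear_combination hw
    have hre : M₂.re = m₁ + E * w.re := by
      rw [hM2]
      simp
    have him : M₂.im = n₁ + E * w.im := by
      rw [hM2]
      simp
    have hq3 : ((q ^ 3 : ℕ) : ℤ) ∣ s₂ - (a.1 * M₂.re ^ 2 + a.2.1 * M₂.re * M₂.im + a.2.2 * M₂.im ^ 2) := (hG M₂.re M₂.im s₂).1 hCG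
    have hEs : (E : ℤ) ∣ s₂ - s₁ := by
      obtain ⟨t, ht⟩ := hs
      refine ⟨x1 * t + y1 * s₂, ?_⟩
      rw [hs₁]
      linear_combination x1 * ht - s₂ * hxy1
    obtain ⟨Z, hZ⟩ : ∃ Z : ℤ, Z = e1 * (a.1 * M₂.re ^ 2 + a.2.1 * M₂.re * M₂.im + a.2.2 * M₂.im ^ 2) + e2 * s₁ := ⟨_, rfl⟩
    have d1 : ((q ^ 3 : ℕ) : ℤ) ∣ s₂ - Z := by
      obtain ⟨t, ht⟩ := hq3
      obtain ⟨t', ht'⟩ := hq1
      refine ⟨t - t' * (a.1 * M₂.re ^ 2 + a.2.1 * M₂.re * M₂.im + a.2.2 * M₂.im ^ 2) - u * s₁, ?_⟩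
      rw [hZ]
      linear_combination ht - (a.1 * M₂.re ^ 2 + a.2.1 * M₂.re * M₂.im + a.2.2 * M₂.im ^ 2) * ht' - s₁ * he2
    have d2 : (E : ℤ) ∣ s₂ - Z := by
      obtain ⟨t, ht⟩ := hEs
      refine ⟨t - v * (a.1 * M₂.re ^ 2 + a.2.1 * M₂.re * M₂.im + a.2.2 * M₂.im ^ 2) + v * s₁, ?_⟩
      rw [hZ]
      linear_combination ht - (a.1 * M₂.re ^ 2 + a.2.1 * M₂.re * M₂.im + a.2.2 * M₂.im ^ 2) * he1 - s₁ * hsum + s₁ * he1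
    have hcop' : IsCoprime ((q ^ 3 : ℕ) : ℤ) (E : ℤ) := ⟨u, v, huv⟩
    obtain ⟨z, hz⟩ := hcop'.mul_dvd d1 d2
    refine ⟨w.re, w.im, z, hM2, ?_⟩
    have hz' : (s₂ : ℝ) = (Z : ℝ) + (q : ℝ) ^ 3 * E * z := by
      have h := congrArg (Int.cast : ℤ → ℝ) hz
      push_cast at h
      linarith
    rw [hz', hZ, hre, him]
    have hqr : (q : ℝ) ≠ 0 := by
      have : (0 : ℝ) < q := by exact_mod_cast hq0
      exact this.ne'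
    have hEr : (E : ℝ) ≠ 0 := by
      have : (0 : ℝ) < E := by exact_mod_cast hE
      exact this.ne'
    push_cast
    field_simp
    ring

end Pool.Agent.RF
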