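import Pool.Agent.helper95.RF.SpecC3

set_option autoImplicit false

namespace Pool.Agent.RF

open Finset NumberField Pool.Agent.helper3.FT

theorem GRM_norm (z : OO) : z.norm = z.re * z.re + z.re * z.im - z.im * z.im := by
  rw [QuadraticAlgebra.norm_def]
  ring

theorem GRM_ns (z : OO) : ((z.norm : ℤ) : OO) = z * star z := by
  have h := QuadraticAlgebra.algebraMap_norm_eq_mul_star z
  rwa [eq_intCast] at h

theorem GRM_castdvd (n : ℤ) (z : OO) : (n : OO) ∣ z ↔ n ∣ z.re ∧ n ∣ z.im := by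
  have h := QuadraticAlgebra.algebraMap_dvd_iff (a := (1 : ℤ)) (b := (1 : ℤ)) (r := n) (z := z)
  rwa [eq_intCast] at h

theorem GRM_idvd {m n : ℤ} : (m : OO) ∣ (n : OO) ↔ m ∣ n := by
  rw [GRM_castdvd]
  simp

theorem GRM_icop {m n : ℤ} (h : IsCoprime m n) : IsCoprime (m : OO) (n : OO) := by
  obtain ⟨a, b, hab⟩ := h
  exact ⟨(a : OO), (b : OO), by exact_mod_cast congrArg (Int.cast : ℤ → OO) hab⟩

theorem GRM_star_int (m : ℤ) : star (m : OO) = (m : OO) := by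
  ext <;> simp

theorem GRM_star_dvd {a b : OO} (h : a ∣ b) : star a ∣ star b := by
  obtain ⟨c, rfl⟩ := h
  exact ⟨star c, by rw [star_mul']⟩

/-- `y + y'` is an integer -/
theorem GRM_tr (y : OO) : y + star y = ((2 * y.re + y.im : ℤ) : OO) := by
  obtain ⟨m, hm⟩ : ∃ m : ℤ, m = 2 * y.re + y.im := ⟨_, rfl⟩
  rw [← hm]
  ext
  · rw [QuadraticAlgebra.re_intCast, Int.cast_id, hm]
    simp
    ring
  · rw [QuadraticAlgebra.im_intCast]
    simp

/-- (F2) -/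
theorem GRM_F2 {k : OO} (hk : IsCoprime k (star k)) (j : ℕ) (x : OO) : ∃ r : ℤ, k ^ j ∣ x - (r : OO) := by
  obtain ⟨u, v, huv⟩ : IsCoprime (k ^ j) (star k ^ j) := hk.pow
  have h1 : star (star k ^ j) = k ^ j := by rw [star_pow, star_star]
  refine ⟨2 * (x * (v * star k ^ j)).re + (x * (v * star k ^ j)).im, ?_⟩
  rw [← GRM_tr (x * (v * star k ^ j))]
  rw [star_mul', star_mul', h1]
  refine ⟨x * u - star x * star v, ?_⟩
  linear_combination (-x) * huv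

/-- (F1) -/
theorem GRM_F1 {k : OO} (hk : IsCoprime k (star k)) (j : ℕ) (m : ℤ) : k ^ j ∣ (m : OO) ↔ ((k.norm.natAbs ^ j : ℕ) : ℤ) ∣ m := by
  have e0 : ((k.norm.natAbs ^ j : ℕ) : ℤ) ∣ m ↔ k.norm ^ j ∣ m := by
    rw [Nat.cast_pow, Int.natCast_natAbs, ← abs_pow]
    exact abs_dvd _ _
  have e1 : ((k.norm ^ j : ℤ) : OO) = k ^ j * star k ^ j := by
    rw [Int.cast_pow, GRM_ns, mul_pow]
  rw [e0, ← GRM_idvd, e1]
  constructor
  · intro h
    have h2 : star k ^ j ∣ (m : OO) := by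
      have h3 := GRM_star_dvd h
      rwa [GRM_star_int, star_pow] at h3
    exact (hk.pow (m := j) (n := j)).mul_dvd h h2
  · intro h
    exact (Dvd.intro _ rfl).trans h

theorem GRM_mul (μ : OO) (x y : ℤ) : ((μ * (⟨x, y⟩ : OO)).norm : ℤ) = μ.norm * (x ^ 2 + x * y - y ^ 2) := by
  rw [GRM_norm, GRM_norm]
  simp only [QuadraticAlgebra.re_mul, QuadraticAlgebra.im_mul]
  ring

theorem GRM_mk (x y : ℤ) : (⟨x, y⟩ : OO) = (x : OO) + (y : OO) * ph := by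
  ext <;> simp [ph]

theorem GRM_cop {k : OO} (hk : IsCoprime k (star k)) (h10 : Nat.Coprime k.norm.natAbs 10) {P : ℤ}
    (hP : Nat.Coprime P.natAbs k.norm.natAbs) : IsCoprime (k ^ 3) (star k ^ 2 * r5 * (P : OO)) := by
  have hkn : k ∣ ((k.norm : ℤ) : OO) := by
    rw [GRM_ns]
    exact Dvd.intro _ rfl
  have h5 : IsCoprime k (r5 * r5) := by
    have e1 : (r5 * r5 : OO) = ((5 : ℤ) : OO) := by
      ext <;> rfl
    rw [e1]
    refine IsCoprime.of_isCoprime_of_dvd_left (GRM_icop ?_) hkn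
    rw [Int.isCoprime_iff_gcd_eq_one, Int.gcd_eq_natAbs]
    exact Nat.Coprime.coprime_dvd_right (by norm_num) h10
  have hPk : IsCoprime k (P : OO) := by
    refine IsCoprime.of_isCoprime_of_dvd_left (GRM_icop ?_) hkn
    rw [Int.isCoprime_iff_gcd_eq_one, Int.gcd_eq_natAbs]
    exact hP.symm
  have h51 : IsCoprime k r5 := IsCoprime.of_isCoprime_of_dvd_right h5 (Dvd.intro _ rfl)
  exact (((hk.pow_right (n := 2)).mul_right h51).mul_right hPk).pow_left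

theorem GRM_ex {k : OO} (hk : IsCoprime k (star k)) (h10 : Nat.Coprime k.norm.natAbs 10) {P : ℤ}
    (hP : Nat.Coprime P.natAbs k.norm.natAbs) (w : OO) : ∃ a : ℤ, k ^ 3 ∣ star k ^ 2 * r5 * (P : OO) * (a : OO) - w := by
  obtain ⟨u, v, huv⟩ := GRM_cop hk h10 hP
  obtain ⟨a, c, ha⟩ := GRM_F2 hk 3 (v * w)
  refine ⟨a, -(star k ^ 2 * r5 * (P : OO)) * c - u * w, ?_⟩
  linear_combination (-(star k ^ 2 * r5 * (P : OO))) * ha + w * huv

theorem GRM : GRM_stmt := by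
  refine ⟨?_, ?_⟩
  · intro k μ P hk h10 hP
    refine ⟨?_, ?_⟩
    · obtain ⟨a, ha⟩ := GRM_ex hk h10 hP (star k ^ 2 * (μ.norm : OO) + 2 * ph * k ^ 2 * μ ^ 2)
      obtain ⟨b, hb⟩ := GRM_ex hk h10 hP (star k ^ 2 * (μ.norm : OO) + 4 * ph ^ 2 * k ^ 2 * μ ^ 2)
      obtain ⟨c, hc⟩ := GRM_ex hk h10 hP (-(star k ^ 2 * (μ.norm : OO)) + 2 * ph ^ 3 * k ^ 2 * μ ^ 2)
      refine ⟨(a, b, c), ⟨?_, ?_, ?_⟩⟩
      · have e1 : star k ^ 2 * (r5 * ((P * a : ℤ) : OO) - (μ.norm : OO)) - 2 * ph * k ^ 2 * μ ^ 2 =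
            star k ^ 2 * r5 * (P : OO) * (a : OO) - (star k ^ 2 * (μ.norm : OO) + 2 * ph * k ^ 2 * μ ^ 2) := by
          push_cast
          ring
        change k ^ 3 ∣ star k ^ 2 * (r5 * ((P * a : ℤ) : OO) - (μ.norm : OO)) - 2 * ph * k ^ 2 * μ ^ 2
        rw [e1]
        exact ha
      · have e1 : star k ^ 2 * (r5 * ((P * b : ℤ) : OO) - (μ.norm : OO)) - 4 * ph ^ 2 * k ^ 2 * μ ^ 2 =
            star k ^ 2 * r5 * (P : OO) * (b : OO) - (star k ^ 2 * (μ.norm : OO) + 4 * ph ^ 2 * k ^ 2 * μ ^ 2) := by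
          push_cast
          ring
        change k ^ 3 ∣ star k ^ 2 * (r5 * ((P * b : ℤ) : OO) - (μ.norm : OO)) - 4 * ph ^ 2 * k ^ 2 * μ ^ 2
        rw [e1]
        exact hb
      · have e1 : star k ^ 2 * (r5 * ((P * c : ℤ) : OO) + (μ.norm : OO)) - 2 * ph ^ 3 * k ^ 2 * μ ^ 2 =
            star k ^ 2 * r5 * (P : OO) * (c : OO) - (-(star k ^ 2 * (μ.norm : OO)) + 2 * ph ^ 3 * k ^ 2 * μ ^ 2) := by
          push_cast
          ring
        change k ^ 3 ∣ star k ^ 2 * (r5 * ((P * c : ℤ) : OO) + (μ.norm : OO)) - 2 * ph ^ 3 * k ^ 2 * μ ^ 2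
        rw [e1]
        exact hc
    · intro a hR x y s
      obtain ⟨ha, hb, hc⟩ := hR
      rw [← GRM_F1 hk 3]
      unfold CG
      have e1 : star k ^ 2 * (r5 * ((P * s : ℤ) : OO) - ((μ * (⟨x, y⟩ : OO)).norm : OO)) - 2 * ph * k ^ 2 * (μ * ⟨x, y⟩) ^ 2 =
          (x : OO) ^ 2 * (star k ^ 2 * (r5 * ((P * a.1 : ℤ) : OO) - (μ.norm : OO)) - 2 * ph * k ^ 2 * μ ^ 2) +
          (x : OO) * (y : OO) * (star k ^ 2 * (r5 * ((P * a.2.1 : ℤ) : OO) - (μ.norm : OO)) - 4 * ph ^ 2 * k ^ 2 * μ ^ 2) +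
          (y : OO) ^ 2 * (star k ^ 2 * (r5 * ((P * a.2.2 : ℤ) : OO) + (μ.norm : OO)) - 2 * ph ^ 3 * k ^ 2 * μ ^ 2) +
          star k ^ 2 * r5 * (P : OO) * ((s - (a.1 * x ^ 2 + a.2.1 * x * y + a.2.2 * y ^ 2) : ℤ) : OO) := by
        rw [GRM_mul, GRM_mk]
        push_cast
        ring
      rw [e1]
      have e2 : k ^ 3 ∣ (x : OO) ^ 2 * (star k ^ 2 * (r5 * ((P * a.1 : ℤ) : OO) - (μ.norm : OO)) - 2 * ph * k ^ 2 * μ ^ 2) +
          (x : OO) * (y : OO) * (star k ^ 2 * (r5 * ((P * a.2.1 : ℤ) : OO) - (μ.norm : OO)) - 4 * ph ^ 2 * k ^ 2 * μ ^ 2) +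
          (y : OO) ^ 2 * (star k ^ 2 * (r5 * ((P * a.2.2 : ℤ) : OO) + (μ.norm : OO)) - 2 * ph ^ 3 * k ^ 2 * μ ^ 2) :=
        dvd_add (dvd_add (ha.mul_left _) (hb.mul_left _)) (hc.mul_left _)
      rw [dvd_add_right e2]
      exact ⟨fun h => (GRM_cop hk h10 hP).dvd_of_dvd_mul_left h, fun h => h.mul_left _⟩
  · intro k g c a hk hR
    obtain ⟨ha, hb, hc⟩ := hR
    have hn : (((c : OO) * g).norm : OO) = (c : OO) ^ 2 * (g * star g) := by
      rw [GRM_ns, star_mul', GRM_star_int]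
      ring
    have hc3 : IsCoprime (k ^ 3) ((c : OO) * g) := hk.pow_left
    refine ⟨?_, ?_, ?_⟩
    · refine hc3.dvd_of_dvd_mul_left ?_
      have e1 : (c : OO) * g * (star g * (r5 * (a.1 : OO) - (c : OO)) * star k ^ 2 - 2 * ph * (c : OO) * k ^ 2 * g) =
          star k ^ 2 * (r5 * ((c * g.norm * a.1 : ℤ) : OO) - (((c : OO) * g).norm : OO)) - 2 * ph * k ^ 2 * ((c : OO) * g) ^ 2 := by
        rw [hn]
        push_cast
        rw [GRM_ns g]
        ring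
      rw [e1]
      exact ha
    · refine hc3.dvd_of_dvd_mul_left ?_
      have e1 : (c : OO) * g * (star g * (r5 * (a.2.1 : OO) - (c : OO)) * star k ^ 2 - 4 * ph ^ 2 * (c : OO) * k ^ 2 * g) =
          star k ^ 2 * (r5 * ((c * g.norm * a.2.1 : ℤ) : OO) - (((c : OO) * g).norm : OO)) - 4 * ph ^ 2 * k ^ 2 * ((c : OO) * g) ^ 2 := by
        rw [hn]
        push_cast
        rw [GRM_ns g]
        ring
      rw [e1]
      exact hb
    · refine hc3.dvd_of_dvd_mul_left ?_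
      have e1 : (c : OO) * g * (star g * (r5 * (a.2.2 : OO) + (c : OO)) * star k ^ 2 - 2 * ph ^ 3 * (c : OO) * k ^ 2 * g) =
          star k ^ 2 * (r5 * ((c * g.norm * a.2.2 : ℤ) : OO) + (((c : OO) * g).norm : OO)) - 2 * ph ^ 3 * k ^ 2 * ((c : OO) * g) ^ 2 := by
        rw [hn]
        push_cast
        rw [GRM_ns g]
        ring
      rw [e1]
      exact hc

end Pool.Agent.RF
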